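import Pool.Agent.WIR.StmtsE
import Pool.Agent.Helper80_WIR.WE2

/-!
# Squad WIR, row WEX: extension of words
-/

set_option autoImplicit false

namespace Pool.Agent.WIR.H5

open Classical in
theorem sum_cnt (M N : ℕ) (S : Set ℕ) :
    ∑ z : ZMod (3 ^ N), cnt M S N z =
      ((Finset.Icc 1 M).powerset.filter (fun O => O.card ∈ S)).card := by
  rw [Finset.card_eq_sum_card_fiberwise (f := fun O => FO N O) (t := Finset.univ)
    (fun _ _ => Finset.mem_coe.2 (Finset.mem_univ _))]
  refine Finset.sum_congr rfl fun z _ => ?_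
  unfold cnt
  rw [Finset.filter_filter]

open Classical in
theorem card_lt (M N : ℕ) (S : Set ℕ) (hS : S = Set.Ici N) :
    ((Finset.Icc 1 M).powerset.filter (fun O => ¬ O.card ∈ S)).card =
      ∑ r ∈ Finset.range N, M.choose r := by
  have h1 : (Finset.Icc 1 M).powerset.filter (fun O => ¬ O.card ∈ S) =
      (Finset.range N).biUnion fun r => (Finset.Icc 1 M).powersetCard r := by
    ext O
    simp only [hS, Finset.mem_filter, Finset.mem_powerset, Set.mem_Ici, not_le, Finset.mem_biUnion,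
      Finset.mem_range, Finset.mem_powersetCard]
    constructor
    · rintro ⟨h1, h2⟩
      exact ⟨O.card, h2, h1, rfl⟩
    · rintro ⟨r, h1, h2, h3⟩
      exact ⟨h2, by omega⟩
  rw [h1, Finset.card_biUnion]
  · refine Finset.sum_congr rfl fun r _ => ?_
    rw [Finset.card_powersetCard, Nat.card_Icc]
    simp
  · intro r _ r' _ hne
    exact Finset.pairwise_disjoint_powersetCard _ hne

open Classical in
theorem tot (M N : ℕ) (S : Set ℕ) (hS : S = Set.Ici N) :
    (∑ z : ZMod (3 ^ N), cnt M S N z) + ∑ r ∈ Finset.range N, M.choose r = 2 ^ M := by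
  rw [sum_cnt, ← card_lt M N S hS, Finset.card_filter_add_card_filter_not, Finset.card_powerset,
    Nat.card_Icc]
  simp

open Classical in
theorem tot_le (M N : ℕ) (S : Set ℕ) : (∑ z : ZMod (3 ^ N), cnt M S N z) ≤ 2 ^ M := by
  rw [sum_cnt]
  refine (Finset.card_filter_le _ _).trans ?_
  rw [Finset.card_powerset, Nat.card_Icc]
  simp

theorem wex (hoe : HoeStmt) : WexStmt := by
  intro N M M' h3 hM
  refine ⟨fun z => H80.we2 N M M' z hM, ?_⟩
  have e1 : (∑ z : ZMod (3 ^ N), (cnt M' (Set.Ici N) N z : ℝ)) =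
      ((∑ z : ZMod (3 ^ N), cnt M' (Set.Ici N) N z : ℕ) : ℝ) := by push_cast; rfl
  have e2 : (∑ z : ZMod (3 ^ N), (cnt M (Set.Ici N) N z : ℝ)) =
      ((∑ z : ZMod (3 ^ N), cnt M (Set.Ici N) N z : ℕ) : ℝ) := by push_cast; rfl
  rw [e1, e2]
  have h1 : (∑ z : ZMod (3 ^ N), cnt M' (Set.Ici N) N z : ℕ) ≤ 2 ^ M' := by
    exact tot_le M' N _
  have h2 : (∑ z : ZMod (3 ^ N), cnt M (Set.Ici N) N z : ℕ) +
      ∑ r ∈ Finset.range N, M.choose r = 2 ^ M := by
    exact tot M N _ rfl
  have h3' : (∑ r ∈ Finset.range N, (M.choose r : ℝ)) ≤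
      2 ^ M * Real.exp (-((N : ℝ) / 6)) := by
    rcases Nat.eq_zero_or_pos N with h0 | hN
    · subst h0
      simp
    · have hMpos : 0 < M := by omega
      have hMr : (0 : ℝ) < M := by exact_mod_cast hMpos
      have h3r : 3 * (N : ℝ) ≤ M := by exact_mod_cast h3
      have hNr : (0 : ℝ) < N := by exact_mod_cast hN
      have h4 := (hoe M ((M : ℝ) - 2 * N) hMpos (by linarith)).2
      refine le_trans ?_ (h4.trans ?_)
      · apply Finset.sum_le_sum_of_subset_of_nonneg
        · intro r hr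
          rw [Finset.mem_range] at hr
          rw [Finset.mem_filter, Finset.mem_range]
          refine ⟨by omega, ?_⟩
          have : (r : ℝ) ≤ N := by exact_mod_cast hr.le
          linarith
        · intro i _ _
          positivity
      · apply mul_le_mul_of_nonneg_left _ (by positivity)
        apply Real.exp_le_exp.2
        rw [neg_le_neg_iff, le_div_iff₀ (by positivity)]
        nlinarith [mul_nonneg hNr.le hMr.le]
  have h2r : ((∑ z : ZMod (3 ^ N), cnt M (Set.Ici N) N z : ℕ) : ℝ) +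
      ∑ r ∈ Finset.range N, (M.choose r : ℝ) = 2 ^ M := by
    exact_mod_cast h2
  have h1r : ((∑ z : ZMod (3 ^ N), cnt M' (Set.Ici N) N z : ℕ) : ℝ) ≤ 2 ^ M' := by
    exact_mod_cast h1
  have hpow : (2 : ℝ) ^ M' = 2 ^ (M' - M) * 2 ^ M := by
    rw [← pow_add]
    congr 1
    omega
  have hp0 : (0 : ℝ) < 2 ^ (M' - M) := by positivity
  calc ((∑ z : ZMod (3 ^ N), cnt M' (Set.Ici N) N z : ℕ) : ℝ) -
      2 ^ (M' - M) * ((∑ z : ZMod (3 ^ N), cnt M (Set.Ici N) N z : ℕ) : ℝ)
      ≤ 2 ^ (M' - M) * ∑ r ∈ Finset.range N, (M.choose r : ℝ) := by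
        have : ∑ r ∈ Finset.range N, (M.choose r : ℝ) =
          2 ^ M - ((∑ z : ZMod (3 ^ N), cnt M (Set.Ici N) N z : ℕ) : ℝ) := by linarith
        rw [this, mul_sub, ← hpow]
        linarith
    _ ≤ 2 ^ (M' - M) * (2 ^ M * Real.exp (-((N : ℝ) / 6))) :=
        mul_le_mul_of_nonneg_left h3' hp0.le
    _ = 2 ^ M' * Real.exp (-((N : ℝ) / 6)) := by rw [hpow]; ring

end Pool.Agent.WIR.H5
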